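import Pool.Agent.N102.FL.Final
import Pool.Agent.N102.TF.Mod
import Pool.Agent.N762.FP.Root2
import Pool.Agent.N808.PR.Abs
import Pool.Agent.N531.FL.Sat
import Pool.Agent.N456.FL.Rank
import Pool.Agent.N40.FL.Piv
import Pool.Agent.N40.FL.Ech
import Pool.Agent.N40.FL.Fam
import Pool.Agent.N40.FL.Dim
import Pool.Agent.N954.FL.Lift
import Pool.Agent.N56.FL.Span
import Pool.Agent.N608.FL.Form

/-!
The class of the function fields which are obtained from function fields of surfaces by all the
operations of the starting files AdmissibleTowers (MP_b525bf_ag) and SystemTowers (MP_19ffc6_ag) and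
by leveled systems with coverings by arbitrary functions of the surfaces (FrobeniusLevels,
MP_b525bf_ag), in any order.
-/

set_option autoImplicit false

open AlgebraicGeometry CategoryTheory Polynomial Pool.Agent.W558 Pool.Agent.N98
  Pool.Agent.TH214.SD Pool.Agent.N102.FL

namespace Pool.Agent.U234.Tow

/-- The values at the point `x` of the polynomials over `F` of total degree at most `t`. -/
noncomputable def values (F : Type) {K : Type} [Field F] [Field K] [Algebra F K] {N : ℕ}
    (x : Fin N → K) (t : ℕ) : Submodule F K :=
  (MvPolynomial.restrictTotalDegree (Fin N) F t).map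
    (MvPolynomial.aeval x : MvPolynomial (Fin N) F →ₐ[F] K).toLinearMap

/-- The variety in the affine space over `F` with the generic point `x` (the zeros of the
polynomials over `F` which vanish at `x`), whose function field is `F (x)`, has dimension `r` and
degree at most `δ`: its Hilbert function, the dimension over `F` of the space of the polynomial
functions of degree at most `t` on the variety, is at most `δ * t ^ r / r! + O (t ^ (r - 1))`. -/
def DegreeAtMost (F : Type) {K : Type} [Field F] [Field K] [Algebra F K] {N : ℕ}
    (x : Fin N → K) (r δ : ℕ) : Prop :=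
  Algebra.trdeg F (IntermediateField.adjoin F (Set.range x)) = r ∧
    ∃ C : ℕ, ∀ t : ℕ, r.factorial * Module.finrank F (values F x t) ≤ δ * (t + C) ^ r

/-- The smallest class of pairs `(K, P)`, where `K` is an extension of the field `k` and `P` is a
set of elements of `K`, with the following properties. -/
inductive IsMixedTower (p : ℕ) (k : Type) [Field k] :
    (K : Type) → [Field K] → [Algebra k K] → Set K → Prop
  /-- If `E` is the function field of a smooth projective surface, then `(E, E)` is in the class.
  -/
  | surface (E : Type) [Field E] [Algebra k E] (h2 : Algebra.trdeg k E = 2)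
      (hE : HasModel k E) : IsMixedTower p k E Set.univ
  /-- If each finite family of nonzero elements of `P` has its zeros and poles in a simple normal
  crossings divisor on some smooth projective variety with function field `E`, then `(E, P)` is in
  the class. (Examples: `E = k`; function fields of curves, with `P = E`.) -/
  | models (E : Type) [Field E] [Algebra k E] (P : Set E)
      (hE : ∀ (m : ℕ) (g : Fin m → E), (∀ b, g b ∈ P) → (∀ b, g b ≠ 0) →
        ∃ (N L : ℕ) (H : Fin (N + 1) → E) (x : Fin (N + 1) → Fin L → E)
          (Γ : Fin m → Fin L → ℤ), IsLogModel (k := k) g H x Γ) :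
      IsMixedTower p k E P
  /-- **Varieties of bounded degree.** Let `K` be the function field of an affine variety over `k`
  with the generic point `x`, of dimension `r ≥ 2` and degree at most `δ`, where
  `(s * δ) ^ 2 ^ (r - 2) < p`. Then `(K, P)` is in the class for the set `P` of the polynomials over
  `k` of degree at most `s` in the `x i`. -/
  | variety (K : Type) [Field K] [Algebra k K] (N r δ s : ℕ) (x : Fin N → K)
      (hx : IntermediateField.adjoin k (Set.range x) = ⊤) (hr : 2 ≤ r) (hδ : DegreeAtMost k x r δ)
      (hs : 1 ≤ s) (hp : (s * δ) ^ 2 ^ (r - 2) < p) :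
      IsMixedTower p k K
        {z | ∃ G : MvPolynomial (Fin N) k, G.totalDegree ≤ s ∧ z = MvPolynomial.aeval x G}
  /-- **Leveled systems over products of surfaces, and their coverings by arbitrary functions of the
  surfaces.** Let `K` be generated by linearly disjoint function fields `E 1, ..., E m` of smooth
  projective surfaces, by the coordinates `z t` and `x j` of a relative schön system over linear
  relations between `1` and the powers `z t ^ (p ^ e t)` (`IsLeveledSystem`), and by elements `w j`
  such that all `w j ^ p - w j` are integral linear combinations of functions `f i ∈ E i` and of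
  nondegenerate Laurent polynomials, or all `w j ^ p` are linear combinations over `k` of such Laurent
  polynomials and of products of functions `g t i ∈ E i` (`IsGeneratedBy`). Then `(K, P)` is in the
  class for the set `P` of the products of elements of the `E i` and of powers of the `z t` and
  `x j`. -/
  | leveled (K : Type) [Field K] [Algebra k K] (m h s n q c r o a : ℕ)
      (E : Fin m → IntermediateField k K) (u : Fin h → K) (e : Fin s → ℕ) (z : Fin s → K)
      (x : Fin n → K) (G : Fin q → (Fin (h + s) ⊕ Fin n → ℤ) →₀ k) (f : ∀ i, E i)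
      (g : Fin o → ∀ i, E i) (F : Fin a → (Fin (h + s) ⊕ Fin n → ℤ) →₀ k) (w : Fin r → K)
      (hB : IsLeveledSystem E p c u e z x G) (hK : IsGeneratedBy E p u z x G f g F w) :
      IsMixedTower p k K {v | IsProduct E (Fin.append z x) v}
  /-- **Products.** If `(K₁, P₁)` and `(K₂, P₂)` are in the class, and `K` is the field of fractions
  of the image of `K₁ ⊗ K₂`, where the homomorphism from `K₁ ⊗ K₂` to `K` is injective (if `k` is
  algebraically closed, `K` is the function field of the product of varieties with the function
  fields `K₁` and `K₂`), then `(K, P₁ ∪ P₂)` is in the class. -/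
  | product (K₁ K₂ K : Type) [Field K₁] [Field K₂] [Field K] [Algebra k K₁] [Algebra k K₂]
      [Algebra k K] (P₁ : Set K₁) (P₂ : Set K₂) (h₁ : IsMixedTower p k K₁ P₁)
      (h₂ : IsMixedTower p k K₂ P₂) (ι₁ : K₁ →ₐ[k] K) (ι₂ : K₂ →ₐ[k] K)
      (hι : Function.Injective (Algebra.TensorProduct.productMap ι₁ ι₂))
      (hK : IntermediateField.adjoin k (Set.range ι₁ ∪ Set.range ι₂) = ⊤) :
      IsMixedTower p k K (ι₁ '' P₁ ∪ ι₂ '' P₂)
  /-- **Families of bounded degree.** Let `(L, P)` be in the class, and let `E` be a field contained
  in `P`. Let `F` be a field of `p ^ e`-th powers of elements of `E` over which `E` is algebraic,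
  for example `E ^ (p ^ e)` (or `E` if `e = 0`). Let `K` be generated over `L` by
  `y 1, ..., y N` and have transcendence degree `r` over `L`, and let the exponents `m i` be not
  divisible by `p ^ (e + 1)` and such that `(y 1 ^ m 1, ..., y N ^ m N)` is the generic point of a
  variety over `F` of dimension `r` and degree at most `δ`. (So `K` is the function field of a
  component of the product over `E` of a variety with the function field `L` and of a variety over
  `E` which is a component of the inverse image of a variety of dimension `r` and degree at most `δ`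
  over `F`.) Suppose that `(s * δ) ^ 2 ^ r < p` and `F` is infinite, or that
  `(max s δ) ^ 2 ^ (N - 1) < p`. Then the `y i` and the polynomials over `F` of degree at most `s`
  in the `y i ^ m i` can be added to `P`. -/
  | family (L K F E : Type) [Field L] [Field K] [Field F] [Field E] [Algebra k L] [Algebra k K]
      [Algebra L K] [IsScalarTower k L K] [Algebra E L] [Algebra E K] [IsScalarTower E L K]
      [Algebra F E] [Algebra F K] [IsScalarTower F E K] [Algebra.IsAlgebraic F E]
      (P : Set L) (h : IsMixedTower p k L P) (hE : ∀ a : E, algebraMap E L a ∈ P)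
      (e : ℕ) (hF : ∀ a : F, ∃ b : E, b ^ p ^ e = algebraMap F E a)
      (N r δ s : ℕ) (y : Fin N → K) (hy : IntermediateField.adjoin L (Set.range y) = ⊤)
      (hr : Algebra.trdeg L K = r) (m : Fin N → ℕ) (hm : ∀ i, ¬ p ^ (e + 1) ∣ m i)
      (hδ : DegreeAtMost F (fun i => y i ^ m i) r δ) (hs : 1 ≤ s)
      (hp : (Infinite F ∧ (s * δ) ^ 2 ^ r < p) ∨ max s δ ^ 2 ^ (N - 1) < p) :
      IsMixedTower p k K (algebraMap L K '' P ∪ (Set.range y ∪
        {z | ∃ G : MvPolynomial (Fin N) F,
          G.totalDegree ≤ s ∧ z = MvPolynomial.aeval (fun i => y i ^ m i) G}))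
  /-- **Adjoining one element.** Let `(L, P)` be in the class, and let `Φ` be a set of nonzero
  polynomials over `L` of degree at most `Δ < p`, which contains `X`, is closed under derivatives,
  whose constant members are in `P`, and such that for `f`, `g` in `Φ`, where `f` is not constant,
  there is a nonzero polynomial `Q` of degree at most `Δ` (for example the characteristic
  polynomial of `g` modulo `f`) whose nonzero coefficients are in `P`, such that `f` divides
  `Q (g)`. Let `K = L (z)`, where `z` is transcendental over `L` or a zero of a member of `Φ`. Then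
  the values at `z` of the members of `Φ` can be added to `P`. -/
  | element (L K : Type) [Field L] [Field K] [Algebra k L] [Algebra k K] [Algebra L K]
      [IsScalarTower k L K] (P : Set L) (h : IsMixedTower p k L P) (Δ : ℕ) (hΔ : Δ < p)
      (Φ : Set L[X]) (h0 : ∀ f ∈ Φ, f ≠ 0) (hdeg : ∀ f ∈ Φ, f.natDegree ≤ Δ) (hX : X ∈ Φ)
      (hder : ∀ f ∈ Φ, 1 ≤ f.natDegree → derivative f ∈ Φ)
      (hconst : ∀ f ∈ Φ, f.natDegree = 0 → f.coeff 0 ∈ P)
      (hQ : ∀ f ∈ Φ, ∀ g ∈ Φ, 1 ≤ f.natDegree → ∃ Q : L[X], Q ≠ 0 ∧ Q.natDegree ≤ Δ ∧
        f ∣ Q.comp g ∧ ∀ n, Q.coeff n ≠ 0 → Q.coeff n ∈ P)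
      (z : K) (hz : IntermediateField.adjoin L {z} = ⊤)
      (hz' : Transcendental L z ∨ ∃ f ∈ Φ, aeval z f = 0) :
      IsMixedTower p k K (algebraMap L K '' P ∪ {y | ∃ f ∈ Φ, y = aeval z f})
  /-- **Systems with Frobenius levels, and their coverings.** Let `(L, P)` be in the class, and let
  `M = L (z, x)`, where the elements `z 1, ..., z s` and `x 1, ..., x n` satisfy a schön system over
  linear relations between `1` and the powers `z t ^ (p ^ e t)`, with coefficients
  `v 1, ..., v h` in `P` (`IsLeveledSystemOver`). Let `F 1, ..., F a` be Laurent polynomials over `k`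
  in the variables of `((v, z), x)` which are strongly nondegenerate on the system, for example
  `a = 0`, and let `K = M (w)`, where all `w j ^ p - w j` are integral linear combinations of the
  `F t ((v, z), x)`, or all `w j ^ p` are linear combinations over `k` of the `F t ((v, z), x)` (for
  example `K = M`). Then the `x j`, and the linear combinations over `k` of `1` and of the
  powers `z t ^ (p ^ (e t - f))`, `e t ≥ f`, for all `f ≥ 0`, can be added to `P`. -/
  | system (L M K : Type) [Field L] [Field M] [Field K] [Algebra k L] [Algebra k M] [Algebra L M]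
      [IsScalarTower k L M] [Algebra k K] [Algebra L K] [Algebra M K] [IsScalarTower k M K]
      [IsScalarTower L M K] (P : Set L) (h : IsMixedTower p k L P) (m s n q c a r : ℕ)
      (v : Fin m → L) (hv : ∀ b, v b ∈ P) (e : Fin s → ℕ) (z : Fin s → M) (x : Fin n → M)
      (G : Fin q → (Fin (m + s) ⊕ Fin n → ℤ) →₀ k) (hB : IsLeveledSystemOver p c v e z x G)
      (F : Fin a → (Fin (m + s) ⊕ Fin n → ℤ) →₀ k) (hF : StronglyNondegenerateOn G F)
      (w : Fin r → K)
      (hw : (∀ j, w j ^ p - w j ∈ AddSubgroup.closure (Set.range fun t => algebraMap M K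
          (value (F t) (Fin.append (fun b => algebraMap L M (v b)) z) x))) ∨
        ∀ j, w j ^ p ∈ Submodule.span k (Set.range fun t => algebraMap M K
          (value (F t) (Fin.append (fun b => algebraMap L M (v b)) z) x)))
      (hK : IntermediateField.adjoin M (Set.range w) = ⊤) :
      IsMixedTower p k K (algebraMap L K '' P ∪
        algebraMap M K '' (Set.range x ∪ {g | IsLinearForm k p e z g}))
  /-- **Radicals.** Let `(L, P)` be in the class, and let `K` be generated over `L` by elements
  `w j ≠ 0` such that `(w j) ^ (n j)` is in `P`, for an exponent `n j` prime to `p`. Then the `w j`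
  can be added to `P`. -/
  | radical (L K : Type) [Field L] [Field K] [Algebra k L] [Algebra k K] [Algebra L K]
      [IsScalarTower k L K] (P : Set L) (h : IsMixedTower p k L P) (g : ℕ) (w : Fin g → K)
      (n : Fin g → ℕ) (hw0 : ∀ j, w j ≠ 0) (hn : ∀ j, ¬ p ∣ n j)
      (hw : ∀ j, ∃ z ∈ P, w j ^ n j = algebraMap L K z)
      (hK : IntermediateField.adjoin L (Set.range w) = ⊤) :
      IsMixedTower p k K (algebraMap L K '' P ∪ Set.range w)
  /-- **Products and roots.** If `(K, P)` is in the class, and each nonzero element of `Q` has a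
  power which is a product of a constant and of (positive or negative) powers of elements of `P`,
  then `(K, Q)` is in the class. -/
  | saturation (K : Type) [Field K] [Algebra k K] (P Q : Set K) (h : IsMixedTower p k K P)
      (hQ : ∀ z ∈ Q, z ≠ 0 → ∃ n : ℕ, n ≠ 0 ∧ ∃ (c : k) (l : ℕ) (a : Fin l → K) (e : Fin l → ℤ),
        (∀ i, a i ∈ P) ∧ z ^ n = algebraMap k K c * ∏ i, a i ^ e i) :
      IsMixedTower p k K Q

/-- Models for leveled systems over products of surfaces. -/
theorem mod_leveled (p : ℕ) [Fact p.Prime] (k K : Type) [Field k] [PerfectField k] [CharP k p]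
    [Field K] [Algebra k K] (m h s n q c r o a : ℕ)
    (E : Fin m → IntermediateField k K) (u : Fin h → K) (e : Fin s → ℕ) (z : Fin s → K)
    (x : Fin n → K) (G : Fin q → (Fin (h + s) ⊕ Fin n → ℤ) →₀ k) (f : ∀ i, E i)
    (g : Fin o → ∀ i, E i) (F : Fin a → (Fin (h + s) ⊕ Fin n → ℤ) →₀ k) (w : Fin r → K)
    (hB : IsLeveledSystem E p c u e z x G) (hK : IsGeneratedBy E p u z x G f g F w) :
    Pool.Agent.N762.FP.Mod k {v | IsProduct E (Fin.append z x) v} := by
  intro B _ b hb _
  obtain ⟨T, I, hT, hI, M, Γ, hF, hfr⟩ := Pool.Agent.N102.FL.models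
    Pool.Agent.N531.FL.t_sat
    (Pool.Agent.N456.FL.t_rank Pool.Agent.N40.FL.t_piv Pool.Agent.N40.FL.t_ech
      Pool.Agent.N954.FL.t_lift Pool.Agent.N56.FL.t_span)
    Pool.Agent.N102.FL.t_form Pool.Agent.N40.FL.t_fam Pool.Agent.N40.FL.t_dim hB hK B b hb
  exact ⟨T, I, hT, hI, M, hfr, fun i => Pool.Agent.N98.IsB.br ⟨Γ i, fun t => hF i t⟩⟩

/-- Finite families of elements of `P` are boundary functions on log smooth models. -/
theorem mod_of_tower (p : ℕ) [Fact p.Prime] (k : Type) [Field k] [PerfectField k]
    [CharP k p] (K : Type) [Field K] [Algebra k K] (P : Set K) (h : IsMixedTower p k K P) :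
    Pool.Agent.N762.FP.Mod k P := by
  induction h with
  | surface E h2 hE =>
    exact Pool.Agent.N762.FP.mod_base (Pool.Agent.W418.LCI.hasLM_of_surface k E h2 hE)
  | models E P hE => exact Pool.Agent.N762.FP.mod_models hE
  | variety K N r δ s x hx hr hδ hs hp =>
    obtain ⟨htr, C, hC⟩ := hδ
    refine Pool.Agent.N808.PR.mod_abs x hx r hr ?_ δ C s hs hC
      (factorial_ne_zero_of_lt p (Fact.out : p.Prime) hp)
    rw [hx] at htr
    rw [← htr]
    exact (IntermediateField.topEquiv (F := k) (E := K)).trdeg_eq.symm
  | leveled K m h s n q c r o a E u e z x G f g F w hB hK =>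
    exact mod_leveled p k K m h s n q c r o a E u e z x G f g F w hB hK
  | product K₁ K₂ K P₁ P₂ h₁ h₂ ι₁ ι₂ hι hK ih₁ ih₂ =>
    exact Pool.Agent.N762.FP.mod_prod ι₁ ι₂ hι hK ih₁ ih₂
  | family L K F E P h hE e hF N r δ s y hy hr m hm hδ hs hp ih =>
    obtain ⟨htr, C, hC⟩ := hδ
    exact Pool.Agent.N762.FP.mod_fam p ih hE y m e hm hF hy r δ C htr hr hC s hs
      (hp.imp (fun h => ⟨h.1, factorial_ne_zero_of_lt p (Fact.out : p.Prime) h.2⟩)
        (fun h => factorial_ne_zero_of_lt p (Fact.out : p.Prime) h))
  | element L K P h Δ hΔ Φ h0 hdeg hX hder hconst hQ z hz hz' ih =>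
    exact Pool.Agent.N762.FP.mod_root ih Δ (factorial_ne_zero_of_lt p (Fact.out : p.Prime) hΔ) Φ
      h0 hdeg hX hder hconst hQ z hz hz'
  | system L M K P h m s n q c a r v hv e z x G hB F hF w hw hK ih =>
    exact Pool.Agent.N102.TF.mod_system ih hv hB hF w hw hK
  | radical L K P h g w n hw0 hn hw hK ih =>
    exact Pool.Agent.N762.FP.mod_rad p ih w hw0 n hn hw hK
  | saturation K P Q h hQ ih => exact Pool.Agent.N762.FP.mod_sat ih hQ

end Pool.Agent.U234.Tow
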